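import Pool.Agent.H958.RL.Stm
import Pool.Agent.H603.RO.Cheb
import Pool.Graph.R_seed8.W657.RD.PBas

/-!
Project RL (helper958), problem MP_ef8d06_pr: part `S_PRIV` (private neighbours), by helper947.
-/

set_option autoImplicit false

namespace Pool.Agent.H947.RL.Priv

open Finset
open scoped Classical
open Pool.Agent.W830.RD (Om gle Pr Rlz)
open Pool.Agent.H958.RL
open Pool.Agent.W571.RD.Pind (ind ind_pos ind_neg EX EX_one EX_congr EX_mul EX_mul' fub indep)
open Pool.Agent.H603.RO.Cheb (EX_sum EX_add cheb)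

noncomputable section

section general
variable {α : Type} [DecidableEq α]

theorem EX_loc (p : ℝ) (W S : Finset α) (h : S ⊆ W) (f : Finset α → ℝ) :
    EX p W (fun E => f (E ∩ S)) = EX p S f := by
  have hW : W = S ∪ (W \ S) := (union_sdiff_of_subset h).symm
  rw [hW, fub p _ _ disjoint_sdiff]
  refine EX_congr p _ _ _ fun E1 h1 => ?_
  rw [EX_congr p (W \ S) _ (fun _ => f E1 * 1) ?_, EX_mul', EX_one, mul_one]
  intro E2 h2
  have e : (E1 ∪ E2) ∩ S = E1 := by
    ext x
    simp only [mem_inter, mem_union]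
    constructor
    · rintro ⟨h | h, hS⟩
      · exact h
      · exact absurd hS (mem_sdiff.1 (h2 h)).2
    · intro h
      exact ⟨Or.inl h, h1 h⟩
  rw [e, mul_one]

omit [DecidableEq α] in
theorem EX_single (p : ℝ) (S : Finset α) (e : α) (he : e ∈ S) :
    EX p S (fun E => ind (E = {e})) = p * (1 - p) ^ (S.card - 1) := by
  unfold EX
  rw [sum_eq_single_of_mem {e} (mem_powerset.mpr (singleton_subset_iff.mpr he))]
  · beta_reduce
    rw [ind_pos rfl, card_singleton, pow_one, mul_one]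
  · intro E _ hE
    beta_reduce
    rw [ind_neg hE, mul_zero]

omit [DecidableEq α] in
theorem EX_mono (p : ℝ) (W : Finset α) (hp : 0 < p) (hp1 : p < 1) (f g : Finset α → ℝ)
    (h : ∀ E ⊆ W, f E ≤ g E) : EX p W f ≤ EX p W g := by
  unfold EX
  refine sum_le_sum fun E hE => ?_
  exact mul_le_mul_of_nonneg_left (h E (mem_powerset.mp hE))
    (mul_nonneg (pow_nonneg hp.le _) (pow_nonneg (by linarith) _))

end general

theorem ind_le_one (P : Prop) : ind P ≤ 1 := by
  by_cases h : P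
  · rw [ind_pos h]
  · rw [ind_neg h]
    exact zero_le_one

theorem ind_nonneg (P : Prop) : 0 ≤ ind P := by
  by_cases h : P
  · rw [ind_pos h]
    exact zero_le_one
  · rw [ind_neg h]

theorem ind_sq (P : Prop) : ind P * ind P = ind P := by
  by_cases h : P
  · rw [ind_pos h, mul_one]
  · rw [ind_neg h, mul_zero]

variable {n : ℕ}

/-- the event for `v` -/
def Av (T S0 : Finset (Fin n)) (v : Fin n) (E : Finset (Fin n × Fin n)) : Prop :=
  ∃ u ∈ S0, T.filter (fun w => (w, v) ∈ E) = {u}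

/-- the block -/
def Vb (n s t : ℕ) : Finset (Fin n) := univ.filter (fun v => s ≤ (v : ℕ) ∧ (v : ℕ) < t)

/-- the number of private neighbours -/
def Xn (T S0 : Finset (Fin n)) (s t : ℕ) (E : Finset (Fin n × Fin n)) : ℝ :=
  ∑ v ∈ Vb n s t, ind (Av T S0 v E)

theorem prv_card (E : Finset (Fin n × Fin n)) (T S0 : Finset (Fin n)) (s t : ℕ) :
    ((prv E T S0 s t).card : ℝ) = Xn T S0 s t E := by
  have h : prv E T S0 s t = (Vb n s t).filter (fun v => Av T S0 v E) := by
    ext v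
    simp only [prv, Vb, Av, mem_filter, mem_univ, true_and, and_assoc]
  rw [h, card_filter, Xn]
  push_cast
  refine sum_congr rfl fun v _ => ?_
  by_cases h : Av T S0 v E
  · rw [if_pos h, ind_pos h]
  · rw [if_neg h, ind_neg h]

theorem card_Vb (s d : ℕ) (h : s + d ≤ n) : (Vb n s (s + d)).card = d := by
  have e : (Vb n s (s + d)).map Fin.valEmbedding = Ico s (s + d) := by
    ext x
    simp only [Vb, mem_map, mem_filter, mem_univ, true_and, Fin.valEmbedding_apply, mem_Ico]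
    constructor
    · rintro ⟨v, hv, rfl⟩
      exact hv
    · intro hx
      exact ⟨⟨x, by omega⟩, hx, rfl⟩
  rw [← card_map Fin.valEmbedding, e, Nat.card_Ico]
  omega

theorem Av_congr (T S0 : Finset (Fin n)) (v : Fin n) (E E' : Finset (Fin n × Fin n))
    (h : ∀ w ∈ T, ((w, v) ∈ E ↔ (w, v) ∈ E')) : Av T S0 v E ↔ Av T S0 v E' := by
  have e : T.filter (fun w => (w, v) ∈ E) = T.filter (fun w => (w, v) ∈ E') :=
    filter_congr fun w hw => h w hw
  unfold Av
  rw [e]

theorem Av_loc (T S0 : Finset (Fin n)) (v : Fin n) (S E : Finset (Fin n × Fin n))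
    (h : ∀ w ∈ T, (w, v) ∈ S) : Av T S0 v E ↔ Av T S0 v (E ∩ S) :=
  Av_congr T S0 v _ _ fun w hw => by
    rw [mem_inter]
    exact ⟨fun h1 => ⟨h1, h w hw⟩, fun h1 => h1.1⟩

theorem ind_congr {P Q : Prop} (h : P ↔ Q) : ind P = ind Q := by
  rw [propext h]

theorem Xn_loc (T S0 : Finset (Fin n)) (s t : ℕ) (E : Finset (Fin n × Fin n)) :
    Xn T S0 s t E = Xn T S0 s t (E ∩ (T ×ˢ Vb n s t)) := by
  unfold Xn
  refine sum_congr rfl fun v hv => ind_congr (Av_loc T S0 v _ E fun w hw => ?_)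
  exact mem_product.mpr ⟨hw, hv⟩

theorem mem_prod_single (T : Finset (Fin n)) (v : Fin n) :
    ∀ w ∈ T, (w, v) ∈ T ×ˢ ({v} : Finset (Fin n)) := fun _ hw =>
  mem_product.mpr ⟨hw, mem_singleton_self v⟩

theorem sub_Om (T : Finset (Fin n)) (V : Finset (Fin n)) (s : ℕ) (hT : ∀ u ∈ T, (u : ℕ) < s)
    (hV : ∀ v ∈ V, s ≤ (v : ℕ)) : T ×ˢ V ⊆ Om n := by
  intro e he
  rw [mem_product] at he
  simp only [Om, mem_filter, mem_univ, true_and]
  exact Fin.lt_def.mpr (lt_of_lt_of_le (hT _ he.1) (hV _ he.2))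

theorem Av_sum (T S0 : Finset (Fin n)) (h0 : S0 ⊆ T) (v : Fin n) (E : Finset (Fin n × Fin n))
    (hE : E ⊆ T ×ˢ ({v} : Finset (Fin n))) : ind (Av T S0 v E) = ∑ u ∈ S0, ind (E = {(u, v)}) := by
  by_cases h : Av T S0 v E
  · rw [ind_pos h]
    obtain ⟨u, hu, hf⟩ := h
    have hEu : E = {(u, v)} := by
      ext ⟨w, v'⟩
      rw [mem_singleton, Prod.mk.injEq]
      constructor
      · intro hw
        have h1 := mem_product.mp (hE hw)
        have h2 : v' = v := mem_singleton.mp h1.2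
        subst h2
        have h3 : w ∈ T.filter (fun w => (w, v') ∈ E) := mem_filter.mpr ⟨h1.1, hw⟩
        rw [hf, mem_singleton] at h3
        exact ⟨h3, rfl⟩
      · rintro ⟨rfl, rfl⟩
        have h3 : w ∈ T.filter (fun w => (w, v') ∈ E) := by
          rw [hf]
          exact mem_singleton_self _
        exact (mem_filter.mp h3).2
    rw [sum_eq_single_of_mem u hu, ind_pos hEu]
    intro b _ hb
    refine ind_neg fun h => hb ?_
    rw [hEu, singleton_inj, Prod.mk.injEq] at h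
    exact h.1.symm
  · rw [ind_neg h]
    refine (sum_eq_zero fun u hu => ind_neg fun hE' => h ⟨u, hu, ?_⟩).symm
    ext w
    rw [mem_filter, mem_singleton, hE', mem_singleton, Prod.mk.injEq]
    constructor
    · rintro ⟨-, h1, -⟩
      exact h1
    · rintro rfl
      exact ⟨h0 hu, rfl, rfl⟩

/-- the probability that `v` is a private neighbour -/
theorem mean (p : ℝ) (T S0 : Finset (Fin n)) (s : ℕ) (hT : ∀ u ∈ T, (u : ℕ) < s) (h0 : S0 ⊆ T)
    (v : Fin n) (hv : s ≤ (v : ℕ)) :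
    EX p (Om n) (fun E => ind (Av T S0 v E)) = S0.card * (p * (1 - p) ^ (T.card - 1)) := by
  set S : Finset (Fin n × Fin n) := T ×ˢ ({v} : Finset (Fin n)) with hS
  have hSO : S ⊆ Om n := sub_Om T {v} s hT fun w hw => by
    rw [mem_singleton.mp hw]
    exact hv
  have hSc : S.card = T.card := by
    rw [hS, card_product, card_singleton, mul_one]
  have e1 : EX p (Om n) (fun E => ind (Av T S0 v E)) =
      EX p (Om n) (fun E => (fun F => ind (Av T S0 v F)) (E ∩ S)) :=
    EX_congr p _ _ _ fun E _ => ind_congr (Av_loc T S0 v S E (mem_prod_single T v))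
  rw [e1, EX_loc p (Om n) S hSO (fun F => ind (Av T S0 v F)), EX_congr p S _ _ fun E hE => Av_sum T S0 h0 v E hE, EX_sum]
  have e2 : ∀ u ∈ S0, EX p S (fun E => ind (E = {(u, v)})) = p * (1 - p) ^ (T.card - 1) := by
    intro u hu
    rw [EX_single p S (u, v) (mem_prod_single T v u (h0 hu)), hSc]
  rw [sum_congr rfl e2, sum_const, nsmul_eq_mul]

theorem pair (p : ℝ) (T S0 : Finset (Fin n)) (s : ℕ) (hT : ∀ u ∈ T, (u : ℕ) < s) (h0 : S0 ⊆ T)
    (v v' : Fin n) (hv : s ≤ (v : ℕ)) (hv' : s ≤ (v' : ℕ)) (hne : v ≠ v') :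
    EX p (Om n) (fun E => ind (Av T S0 v E) * ind (Av T S0 v' E)) =
      (S0.card * (p * (1 - p) ^ (T.card - 1))) ^ 2 := by
  have hd : Disjoint (T ×ˢ ({v} : Finset (Fin n))) (T ×ˢ ({v'} : Finset (Fin n))) := by
    rw [disjoint_left]
    intro e he he'
    have h1 := mem_singleton.mp (mem_product.mp he).2
    have h2 := mem_singleton.mp (mem_product.mp he').2
    exact hne (h1.symm.trans h2)
  have e1 : EX p (Om n) (fun E => ind (Av T S0 v E) * ind (Av T S0 v' E)) =
      EX p (Om n) (fun E => (fun F => ind (Av T S0 v F)) (E ∩ (T ×ˢ ({v} : Finset (Fin n)))) *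
        (fun F => ind (Av T S0 v' F)) (E ∩ (T ×ˢ ({v'} : Finset (Fin n))))) := by
    refine EX_congr p _ _ _ fun E _ => ?_
    beta_reduce
    rw [← ind_congr (Av_loc T S0 v _ E (mem_prod_single T v)),
      ← ind_congr (Av_loc T S0 v' _ E (mem_prod_single T v'))]
  have e2 : ∀ x : Fin n, s ≤ (x : ℕ) →
      EX p (Om n) (fun E => (fun F => ind (Av T S0 x F)) (E ∩ (T ×ˢ ({x} : Finset (Fin n))))) =
      S0.card * (p * (1 - p) ^ (T.card - 1)) := by
    intro x hx
    rw [← mean p T S0 s hT h0 x hx]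
    exact EX_congr p _ _ _ fun E _ =>
      (ind_congr (Av_loc T S0 x _ E (mem_prod_single T x))).symm
  rw [e1, indep p (Om n) _ _ hd (fun F => ind (Av T S0 v F)) (fun F => ind (Av T S0 v' F)),
    e2 v hv, e2 v' hv', sq]

theorem EX_X (p : ℝ) (T S0 : Finset (Fin n)) (s d : ℕ) (hT : ∀ u ∈ T, (u : ℕ) < s) (h0 : S0 ⊆ T)
    (hd : s + d ≤ n) :
    EX p (Om n) (Xn T S0 s (s + d)) = d * (S0.card * (p * (1 - p) ^ (T.card - 1))) := by
  have e1 : EX p (Om n) (Xn T S0 s (s + d)) =
      ∑ v ∈ Vb n s (s + d), EX p (Om n) (fun E => ind (Av T S0 v E)) := by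
    unfold Xn
    rw [EX_sum]
  rw [e1, sum_congr rfl fun v hv => mean p T S0 s hT h0 v (mem_filter.mp hv).2.1, sum_const,
    card_Vb s d hd, nsmul_eq_mul]

theorem EX_XX (p : ℝ) (hp : 0 < p) (hp1 : p < 1) (T S0 : Finset (Fin n)) (s d : ℕ)
    (hT : ∀ u ∈ T, (u : ℕ) < s) (h0 : S0 ⊆ T) (hd : s + d ≤ n) :
    EX p (Om n) (fun E => Xn T S0 s (s + d) E * Xn T S0 s (s + d) E) ≤
      d * (S0.card * (p * (1 - p) ^ (T.card - 1))) +
        (d * (S0.card * (p * (1 - p) ^ (T.card - 1)))) ^ 2 := by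
  set q : ℝ := S0.card * (p * (1 - p) ^ (T.card - 1)) with hq
  have hq0 : 0 ≤ q := by
    have : 0 ≤ 1 - p := by linarith
    positivity
  have e1 : (fun E => Xn T S0 s (s + d) E * Xn T S0 s (s + d) E) = (fun E =>
      ∑ v ∈ Vb n s (s + d), ∑ v' ∈ Vb n s (s + d),
        ind (Av T S0 v E) * ind (Av T S0 v' E)) := by
    funext E
    unfold Xn
    rw [sum_mul_sum]
  rw [e1, EX_sum]
  have e2 : ∀ v ∈ Vb n s (s + d), EX p (Om n) (fun E => ∑ v' ∈ Vb n s (s + d),
      ind (Av T S0 v E) * ind (Av T S0 v' E)) ≤ q + d * q ^ 2 := by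
    intro v hv
    rw [EX_sum]
    have e3 : ∀ v' ∈ Vb n s (s + d),
        EX p (Om n) (fun E => ind (Av T S0 v E) * ind (Av T S0 v' E)) ≤
        (if v' = v then q else 0) + q ^ 2 := by
      intro v' hv'
      by_cases h : v' = v
      · rw [if_pos h, h, EX_congr p (Om n) _ (fun E => ind (Av T S0 v E)) fun E _ => ind_sq _,
          mean p T S0 s hT h0 v (mem_filter.mp hv).2.1]
        have := sq_nonneg q
        linarith
      · rw [if_neg h, zero_add, pair p T S0 s hT h0 v v' (mem_filter.mp hv).2.1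
          (mem_filter.mp hv').2.1 (Ne.symm h)]
    refine (sum_le_sum e3).trans (le_of_eq ?_)
    rw [sum_add_distrib, sum_ite_eq' _ v, if_pos hv, sum_const, card_Vb s d hd, nsmul_eq_mul]
  refine (sum_le_sum e2).trans (le_of_eq ?_)
  rw [sum_const, card_Vb s d hd, nsmul_eq_mul]
  ring

/-- Chebyshev for one family. -/
theorem low (p : ℝ) (hp : 0 < p) (hp1 : p < 1) (T S0 : Finset (Fin n)) (s d r : ℕ)
    (hT : ∀ u ∈ T, (u : ℕ) < s) (h0 : S0 ⊆ T) (hd : s + d ≤ n) (hr : S0.card = r)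
    (hpT : p * T.card ≤ 1 / 10) (h400 : 400 ≤ d * r * p) :
    EX p (Om n) (fun E => ind (Xn T S0 s (s + d) E < d * r * p / 2)) ≤ 1 / 64 := by
  set M : ℝ := d * r * p with hM
  set μ : ℝ := d * (S0.card * (p * (1 - p) ^ (T.card - 1))) with hμ
  have hpow : 9 / 10 ≤ (1 - p) ^ (T.card - 1) := by
    have h1 := one_add_mul_le_pow (a := -p) (by linarith) (T.card - 1)
    have h2 : ((T.card - 1 : ℕ) : ℝ) ≤ T.card := by
      exact_mod_cast Nat.sub_le _ _
    have h3 : p * ((T.card - 1 : ℕ) : ℝ) ≤ p * T.card := mul_le_mul_of_nonneg_left h2 hp.le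
    rw [← sub_eq_add_neg] at h1
    linarith
  have hpow1 : (1 - p) ^ (T.card - 1) ≤ 1 := pow_le_one₀ (by linarith) (by linarith)
  have hμM : μ = M * (1 - p) ^ (T.card - 1) := by
    rw [hμ, hM, hr]
    ring
  have hM0 : 0 < M := by linarith
  have h1 : 9 / 10 * M ≤ μ := by
    rw [hμM, mul_comm]
    exact mul_le_mul_of_nonneg_left hpow hM0.le
  have h2 : μ ≤ M := by
    rw [hμM]
    exact mul_le_of_le_one_right hM0.le hpow1
  have hmu : EX p (Om n) (fun E => -1 * Xn T S0 s (s + d) E) = -μ := by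
    rw [EX_mul', EX_X p T S0 s d hT h0 hd]
    ring
  have hc := cheb p (Om n) hp hp1 (fun E => -1 * Xn T S0 s (s + d) E) (-μ) (2 / 5 * M)
    (by linarith) hmu
  have h3 : EX p (Om n) (fun E => ind (Xn T S0 s (s + d) E < M / 2)) ≤
      EX p (Om n) (fun E => ind (-μ + 2 / 5 * M < -1 * Xn T S0 s (s + d) E)) := by
    refine EX_mono p (Om n) hp hp1 _ _ fun E _ => ?_
    by_cases h : Xn T S0 s (s + d) E < M / 2
    · rw [ind_pos h, ind_pos]
      linarith
    · rw [ind_neg h]
      exact ind_nonneg _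
  refine h3.trans (hc.trans ?_)
  have h4 : EX p (Om n) (fun E => (-1 * Xn T S0 s (s + d) E) * (-1 * Xn T S0 s (s + d) E)) ≤
      μ + μ ^ 2 := by
    have e : (fun E => (-1 * Xn T S0 s (s + d) E) * (-1 * Xn T S0 s (s + d) E)) =
        (fun E => Xn T S0 s (s + d) E * Xn T S0 s (s + d) E) := by
      funext E
      ring
    rw [e]
    exact EX_XX p hp hp1 T S0 s d hT h0 hd
  rw [div_le_iff₀ (by positivity)]
  nlinarith

/-- At most one of the disjoint sets contains the unique neighbour of `v`. -/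
theorem uniq (I : Finset (Fin n)) (Sf : Fin n → Finset (Fin n))
    (hdis : ∀ i ∈ I, ∀ j ∈ I, i ≠ j → Disjoint (Sf i) (Sf j)) (v : Fin n)
    (E : Finset (Fin n × Fin n)) :
    (I.filter (fun i => Av (I.biUnion Sf) (Sf i) v E)).card ≤ 1 := by
  rw [card_le_one]
  intro a ha b hb
  obtain ⟨ha1, u, hu, hfu⟩ := mem_filter.mp ha
  obtain ⟨hb1, u', hu', hfu'⟩ := mem_filter.mp hb
  by_contra hne
  rw [hfu, singleton_inj] at hfu'
  rw [← hfu'] at hu'
  exact disjoint_left.mp (hdis a ha1 b hb1 hne) hu hu'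

theorem var_eq (p : ℝ) (W : Finset (Fin n × Fin n)) (Z : Finset (Fin n × Fin n) → ℝ) (mu : ℝ)
    (hmu : EX p W Z = mu) :
    EX p W (fun E => (Z E - mu) ^ 2) = EX p W (fun E => Z E * Z E) - mu ^ 2 := by
  have e : (fun E => (Z E - mu) ^ 2) = (fun E => (Z E * Z E + (-2 * mu) * Z E) + mu ^ 2 * 1) := by
    funext E
    ring
  rw [e, EX_add, EX_add, EX_mul', EX_mul', EX_one, hmu]
  ring

theorem Ex_eq (p : ℝ) (g : Finset (Fin n × Fin n) → ℝ) : Ex p n g = EX p (Om n) g := by
  unfold Ex EX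
  exact sum_congr rfl fun E _ => mul_comm _ _

/-- The number of the sets with few private neighbours. -/
def gg (T I : Finset (Fin n)) (Sf : Fin n → Finset (Fin n)) (s t : ℕ) (c : ℝ)
    (E : Finset (Fin n × Fin n)) : ℝ := ∑ i ∈ I, ind (Xn T (Sf i) s t E < c)

theorem gg_diff (I : Finset (Fin n)) (Sf : Fin n → Finset (Fin n)) (s t : ℕ) (c : ℝ)
    (hdis : ∀ i ∈ I, ∀ j ∈ I, i ≠ j → Disjoint (Sf i) (Sf j))
    (E : Finset (Fin n × Fin n)) (e : Fin n × Fin n) :
    |gg (I.biUnion Sf) I Sf s t c (insert e E) - gg (I.biUnion Sf) I Sf s t c (E.erase e)| ≤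
      2 := by
  set T := I.biUnion Sf with hT
  set J1 := I.filter (fun i => Av T (Sf i) e.2 (insert e E)) with hJ1
  set J2 := I.filter (fun i => Av T (Sf i) e.2 (E.erase e)) with hJ2
  have hJ : (J1 ∪ J2).card ≤ 2 := by
    have h1 : J1.card ≤ 1 := uniq I Sf hdis e.2 (insert e E)
    have h2 : J2.card ≤ 1 := uniq I Sf hdis e.2 (E.erase e)
    have := card_union_le J1 J2
    omega
  have hx : ∀ i ∈ I, i ∉ J1 ∪ J2 → Xn T (Sf i) s t (insert e E) = Xn T (Sf i) s t (E.erase e) := by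
    intro i hi hiJ
    rw [mem_union, not_or] at hiJ
    have n1 : ¬ Av T (Sf i) e.2 (insert e E) := fun h => hiJ.1 (mem_filter.mpr ⟨hi, h⟩)
    have n2 : ¬ Av T (Sf i) e.2 (E.erase e) := fun h => hiJ.2 (mem_filter.mpr ⟨hi, h⟩)
    unfold Xn
    refine sum_congr rfl fun v _ => ?_
    by_cases hv : v = e.2
    · rw [hv, ind_neg n1, ind_neg n2]
    · refine ind_congr (Av_congr T (Sf i) v _ _ fun w _ => ?_)
      have hne : (w, v) ≠ e := fun h => hv (by rw [← h])
      rw [mem_insert, mem_erase]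
      exact ⟨fun h => ⟨hne, h.resolve_left hne⟩, fun h => Or.inr h.2⟩
  unfold gg
  rw [← sum_sub_distrib]
  refine (abs_sum_le_sum_abs _ _).trans ?_
  have hb : ∀ i ∈ I, |ind (Xn T (Sf i) s t (insert e E) < c) -
      ind (Xn T (Sf i) s t (E.erase e) < c)| ≤ if i ∈ J1 ∪ J2 then 1 else 0 := by
    intro i hi
    by_cases h : i ∈ J1 ∪ J2
    · rw [if_pos h, abs_le]
      have a1 := ind_nonneg (Xn T (Sf i) s t (insert e E) < c)
      have a2 := ind_le_one (Xn T (Sf i) s t (insert e E) < c)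
      have a3 := ind_nonneg (Xn T (Sf i) s t (E.erase e) < c)
      have a4 := ind_le_one (Xn T (Sf i) s t (E.erase e) < c)
      constructor <;> linarith
    · rw [if_neg h, hx i hi h, sub_self, abs_zero]
  refine (sum_le_sum hb).trans ?_
  rw [sum_ite_mem, sum_const, nsmul_eq_mul, mul_one]
  have : (I ∩ (J1 ∪ J2)).card ≤ (J1 ∪ J2).card := card_le_card inter_subset_right
  exact_mod_cast this.trans hJ

/-- Part PRIV. -/
theorem main (h : S_ES) : S_PRIV := by
  intro p n s d r I Sf hp hp1 hI hc hdis hs hd hpr h400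
  set T := I.biUnion Sf with hT
  set M : ℝ := d * r * p with hM
  have hTs : ∀ u ∈ T, (u : ℕ) < s := by
    intro u hu
    obtain ⟨i, hi, hui⟩ := mem_biUnion.mp hu
    exact hs i hi u hui
  have hTc : T.card = r * I.card := by
    rw [hT, card_biUnion hdis, sum_congr rfl hc, sum_const, smul_eq_mul, mul_comm]
  have hpT : p * T.card ≤ 1 / 10 := by
    rw [hTc]
    push_cast
    exact hpr
  have hsub : ∀ i ∈ I, Sf i ⊆ T := fun i hi => subset_biUnion_of_mem Sf hi
  have hN : (0 : ℝ) < I.card := by exact_mod_cast hI.card_pos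
  set g := gg T I Sf s (s + d) (M / 2) with hg
  set S : Finset (Fin n × Fin n) := T ×ˢ Vb n s (s + d) with hS
  have hSO : S ⊆ Om n := sub_Om T _ s hTs fun v hv => (mem_filter.mp hv).2.1
  have hSc : (S.card : ℝ) = r * I.card * d := by
    rw [hS, card_product, card_Vb s d hd, hTc]
    push_cast
    ring
  have hloc : ∀ E, g E = g (E ∩ S) := by
    intro E
    rw [hg]
    unfold gg
    refine sum_congr rfl fun i _ => ?_
    rw [Xn_loc T (Sf i) s (s + d) E]
  have hES := h p 2 n S g hp hp1 hSO hloc fun E e _ => gg_diff I Sf s (s + d) (M / 2) hdis E e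
  have hmean : EX p (Om n) g ≤ I.card / 64 := by
    have e1 : EX p (Om n) g =
        ∑ i ∈ I, EX p (Om n) (fun E => ind (Xn T (Sf i) s (s + d) E < M / 2)) := by
      rw [hg]
      unfold gg
      rw [EX_sum]
    rw [e1]
    refine (sum_le_sum fun i hi => low p hp hp1 T (Sf i) s d r hTs (hsub i hi) hd (hc i hi) hpT
      h400).trans (le_of_eq ?_)
    rw [sum_const, nsmul_eq_mul]
    ring
  set mu := EX p (Om n) g with hmu
  simp only [Ex_eq] at hES
  rw [← hmu, var_eq p (Om n) g mu hmu.symm, hSc] at hES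
  have hche := cheb p (Om n) hp hp1 g mu (15 / 64 * I.card)
    (mul_pos (by norm_num) hN) hmu.symm
  have hcard : ∀ E : Finset (Fin n × Fin n), ((I.filter (fun i =>
      ((prv E T (Sf i) s (s + d)).card : ℝ) < M / 2)).card : ℝ) = g E := by
    intro E
    rw [card_filter, hg]
    unfold gg
    push_cast
    refine sum_congr rfl fun i _ => ?_
    rw [prv_card]
    by_cases h : Xn T (Sf i) s (s + d) E < M / 2
    · rw [if_pos h, ind_pos h]
    · rw [if_neg h, ind_neg h]
  rw [Pool.Agent.H603.RO.Cheb.Pr_eq]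
  have e3 : EX p (Om n) (fun E => ind ((I.card : ℝ) / 4 < ((I.filter (fun i =>
      ((prv E T (Sf i) s (s + d)).card : ℝ) < M / 2)).card : ℝ))) ≤
      EX p (Om n) (fun E => ind (mu + 15 / 64 * I.card < g E)) := by
    refine EX_mono p (Om n) hp hp1 _ _ fun E _ => ?_
    rw [hcard E]
    by_cases h : (I.card : ℝ) / 4 < g E
    · rw [ind_pos h, ind_pos]
      linarith
    · rw [ind_neg h]
      exact ind_nonneg _
  refine e3.trans (hche.trans ?_)
  have h5 : EX p (Om n) (fun E => g E * g E) - mu ^ 2 ≤ 4 * M * I.card := by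
    refine hES.trans (le_of_eq ?_)
    rw [hM]
    ring
  have hM0 : 0 < M := by linarith
  rw [div_le_div_iff₀ (pow_pos (mul_pos (by norm_num) hN) 2) hN]
  have h6 := mul_le_mul_of_nonneg_right h5 hN.le
  refine h6.trans ?_
  have h7 : 0 < M * (I.card : ℝ) ^ 2 := mul_pos hM0 (pow_pos hN 2)
  nlinarith

end

end Pool.Agent.H947.RL.Priv
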